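import Pool.Agent.W927.MT.Stm

/-! MT-ROT: two fixed point free measure preserving involutions with ergodic composition. -/

set_option autoImplicit false

namespace Pool.Agent.W465.MT

open MeasureTheory Set Filter Pool.Agent.W927.MT

/-- the exceptional set -/
def DD : Set UnitAddCircle :=
  range fun q : ℤ × ℤ => (((q.1 * √2 + q.2) / 2 : ℝ) : UnitAddCircle)

lemma DD_countable : DD.Countable := countable_range _

lemma DD_meas : MeasurableSet DD := DD_countable.measurableSet

lemma sing_null (x : UnitAddCircle) : volume ({x} : Set UnitAddCircle) = 0 := by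
  have h := AddCircle.volume_closedBall (T := (1 : ℝ)) (x := x) 0
  rw [Metric.closedBall_zero] at h
  rw [h]
  simp

instance : NullSingletonClass (volume : Measure UnitAddCircle) := ⟨sing_null⟩

lemma DD_null : volume DD = 0 := DD_countable.measure_zero _

lemma coe_eq_int {x : ℝ} (h : (x : UnitAddCircle) = 0) : ∃ m : ℤ, x = m := by
  obtain ⟨n, hn⟩ := (AddCircle.coe_eq_zero_iff (1 : ℝ)).1 h
  exact ⟨n, by rw [← hn]; simp⟩

lemma coe_int (m : ℤ) : (((m : ℝ)) : UnitAddCircle) = 0 :=
  (AddCircle.coe_eq_zero_iff (1 : ℝ)).2 ⟨m, by simp⟩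

lemma mem_of (x : ℝ) (k m : ℤ) (h : 2 * x = k * √2 + m) : ((x : ℝ) : UnitAddCircle) ∈ DD :=
  ⟨(k, m), by
    show (((k * √2 + m) / 2 : ℝ) : UnitAddCircle) = x
    congr 1
    linarith⟩

/-- the rotation number -/
noncomputable def al : UnitAddCircle := ((√2 : ℝ) : UnitAddCircle)

lemma neg_mem {y : UnitAddCircle} (h : y ∈ DD) : -y ∈ DD := by
  obtain ⟨⟨k, m⟩, rfl⟩ := h
  show -(((k * √2 + m) / 2 : ℝ) : UnitAddCircle) ∈ DD
  rw [← AddCircle.coe_neg]
  refine mem_of _ (-k) (-m) ?_
  push_cast
  ring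

lemma al_sub_mem {y : UnitAddCircle} (h : y ∈ DD) : al - y ∈ DD := by
  obtain ⟨⟨k, m⟩, rfl⟩ := h
  show ((√2 : ℝ) : UnitAddCircle) - (((k * √2 + m) / 2 : ℝ) : UnitAddCircle) ∈ DD
  rw [← AddCircle.coe_sub]
  refine mem_of _ (2 - k) (-m) ?_
  push_cast
  ring

/-- the involutions on the circle -/
noncomputable def f (j : Bool) (y : UnitAddCircle) : UnitAddCircle := if j then al - y else -y

lemma f_mem (j : Bool) {y : UnitAddCircle} (h : y ∈ DD) : f j y ∈ DD := by
  cases j
  · simpa [f] using neg_mem h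
  · simpa [f] using al_sub_mem h

lemma f_inv (j : Bool) (y : UnitAddCircle) : f j (f j y) = y := by
  cases j <;> simp [f]

lemma f_mem_iff (j : Bool) (y : UnitAddCircle) : f j y ∈ DD ↔ y ∈ DD :=
  ⟨fun h => by have := f_mem j h; rwa [f_inv] at this, f_mem j⟩

lemma f_ne (j : Bool) {y : UnitAddCircle} (hy : y ∉ DD) : f j y ≠ y := by
  intro h
  apply hy
  obtain ⟨x, rfl⟩ := QuotientAddGroup.mk_surjective y
  cases j
  · simp only [f, Bool.false_eq_true, if_false] at h
    have h1 : ((2 * x : ℝ) : UnitAddCircle) = 0 := by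
      have h2 : ((2 * x : ℝ) : UnitAddCircle) = (x : UnitAddCircle) + (x : UnitAddCircle) := by
        rw [two_mul, AddCircle.coe_add]
      rw [h2]
      nth_rewrite 1 [← h]
      exact neg_add_cancel _
    obtain ⟨m, hm⟩ := coe_eq_int h1
    exact mem_of x 0 m (by rw [hm]; simp)
  · simp only [f, if_true] at h
    have h1 : ((2 * x - √2 : ℝ) : UnitAddCircle) = 0 := by
      have h2 : ((2 * x - √2 : ℝ) : UnitAddCircle) =
          (x : UnitAddCircle) + (x : UnitAddCircle) - al := by
        rw [two_mul, AddCircle.coe_sub, AddCircle.coe_add]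
        rfl
      rw [h2]
      nth_rewrite 1 [← h]
      show al - (x : UnitAddCircle) + (x : UnitAddCircle) - al = 0
      abel
    obtain ⟨m, hm⟩ := coe_eq_int h1
    exact mem_of x 1 m (by push_cast; linarith)

/-- the space -/
abbrev YY : Type := {y : UnitAddCircle // y ∈ DDᶜ}

/-- the measure -/
noncomputable def nu : Measure YY := Measure.comap Subtype.val volume

lemma emb : MeasurableEmbedding (Subtype.val : YY → UnitAddCircle) :=
  MeasurableEmbedding.subtype_coe DD_meas.compl

lemma nu_apply (s : Set YY) : nu s = volume (Subtype.val '' s) := emb.comap_apply _ _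

lemma nu_univ : nu univ = 1 := by
  rw [nu_apply, image_univ, Subtype.range_coe_subtype]
  show volume DDᶜ = 1
  rw [measure_compl DD_meas (by rw [DD_null]; exact ENNReal.zero_ne_top), DD_null, tsub_zero]
  simp

/-- restriction of a map to the subspace -/
def rs (g : UnitAddCircle → UnitAddCircle) (hg : ∀ y, g y ∈ DD ↔ y ∈ DD) (y : YY) : YY :=
  ⟨g y.1, fun h => y.2 ((hg y.1).1 h)⟩

lemma image_rs (g : UnitAddCircle → UnitAddCircle) (hg : ∀ y, g y ∈ DD ↔ y ∈ DD) (s : Set YY) :
    Subtype.val '' (rs g hg ⁻¹' s) = g ⁻¹' (Subtype.val '' s) := by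
  ext y
  constructor
  · rintro ⟨z, hz, rfl⟩
    exact ⟨rs g hg z, hz, rfl⟩
  · rintro ⟨z, hz, hzy⟩
    have hy : y ∉ DD := by
      intro h
      apply z.2
      rw [hzy]
      exact (hg y).2 h
    refine ⟨⟨y, hy⟩, ?_, rfl⟩
    show rs g hg ⟨y, hy⟩ ∈ s
    have : rs g hg ⟨y, hy⟩ = z := Subtype.ext hzy.symm
    rw [this]; exact hz

lemma mp_rs {g : UnitAddCircle → UnitAddCircle} (hg : ∀ y, g y ∈ DD ↔ y ∈ DD)
    (hm : MeasurePreserving g volume volume) : MeasurePreserving (rs g hg) nu nu := by
  have hme : Measurable (rs g hg) := (hm.measurable.comp measurable_subtype_coe).subtype_mk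
  refine ⟨hme, ?_⟩
  ext s hs
  rw [Measure.map_apply hme hs, nu_apply, nu_apply, image_rs,
    hm.measure_preimage (emb.measurableSet_image.2 hs).nullMeasurableSet]

lemma erg_rs {g : UnitAddCircle → UnitAddCircle} (hg : ∀ y, g y ∈ DD ↔ y ∈ DD)
    (hm : Ergodic g volume) : Ergodic (rs g hg) nu := by
  refine ⟨mp_rs hg hm.toMeasurePreserving, ⟨fun s hs hinv => ?_⟩⟩
  have h1 : g ⁻¹' (Subtype.val '' s) = Subtype.val '' s := by
    rw [← image_rs g hg, hinv]
  rw [eventuallyConst_set']
  rcases hm.toPreErgodic.ae_empty_or_univ (emb.measurableSet_image.2 hs) h1 with h | h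
  · left
    rw [ae_eq_empty] at h ⊢
    rw [nu_apply]; exact h
  · right
    rw [ae_eq_univ] at h ⊢
    rw [nu_apply]
    refine measure_mono_null ?_ h
    rintro _ ⟨z, hz, rfl⟩ ⟨w, hw, hwz⟩
    exact hz (by rwa [← Subtype.ext hwz])

lemma f_mp (j : Bool) : MeasurePreserving (f j) (volume : Measure UnitAddCircle) volume := by
  cases j
  · have : f false = fun y => -y := by funext y; simp [f]
    rw [this]
    exact Measure.measurePreserving_neg volume
  · have : f true = fun y => al - y := by funext y; simp [f]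
    rw [this]
    exact Measure.measurePreserving_sub_left volume al

theorem main : S_ROT := by
  have hp : IsProbabilityMeasure nu := ⟨nu_univ⟩
  have hst : StandardBorelSpace YY := DD_meas.compl.standardBorel
  refine ⟨YY, inferInstance, hst, nu, hp, fun j => rs (f j) (f_mem_iff j), ?_, ?_, ?_, ?_⟩
  · intro j
    exact mp_rs _ (f_mp j)
  · intro j y
    exact Subtype.ext (f_inv j y.1)
  · intro j y h
    exact f_ne j y.2 (congrArg Subtype.val h)
  · have h1 : Ergodic (fun y : UnitAddCircle => al + y) volume := by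
      refine AddCircle.ergodic_add_left.2 (AddCircle.denseRange_zsmul_iff.1 ?_)
      exact AddCircle.denseRange_zsmul_coe_iff.2 (by rw [div_one]; exact irrational_sqrt_two)
    have h2 : ∀ y : UnitAddCircle, al + y ∈ DD ↔ y ∈ DD := by
      intro y
      have h3 : al + y = f true (f false y) := by simp [f]
      rw [h3, f_mem_iff, f_mem_iff]
    have h4 : (fun y : YY => rs (f true) (f_mem_iff true) (rs (f false) (f_mem_iff false) y)) =
        rs (fun y => al + y) h2 := by
      funext y
      apply Subtype.ext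
      show f true (f false y.1) = al + y.1
      simp [f]
    rw [h4]
    exact erg_rs h2 h1

end Pool.Agent.W465.MT
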